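import Pool.Agent.helper17.SG.SpecM

/-!
# M11: conical points (project sg:)
-/

set_option autoImplicit false

open MeasureTheory Set Metric Filter Topology
open scoped ENNReal NNReal ComplexConjugate

namespace Pool.Agent.SG

theorem M11 (h10 : M10_stmt) : M11_stmt := by
  intro Γ _ A W ν hν
  obtain ⟨M, hM, H⟩ := h10 Γ A W ν hν
  refine ⟨M, hM, fun ε hε => ?_⟩
  obtain ⟨C, c, hC, hc, H2⟩ := H ε hε
  have hpos : ∀ n : ℕ, (0 : ℝ) < (1 / 2 : ℝ) ^ n := fun n => by positivity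
  have hle : ∀ n : ℕ, (1 / 2 : ℝ) ^ n ≤ 1 := fun n => pow_le_one₀ (by norm_num) (by norm_num)
  have hmeas : ∀ n : ℕ, MeasurableSet (typ A W M C c ((1 / 2 : ℝ) ^ n)) :=
    fun n => (H2 _ (hpos n) (hle n)).1
  have hcon : con A W M C c = ⋂ k : ℕ, ⋃ n : ℕ, ⋃ _ : k ≤ n, typ A W M C c ((1 / 2 : ℝ) ^ n) := by
    ext η
    simp only [con, Set.mem_ofPred_eq, mem_iInter, mem_iUnion, exists_prop]
  refine ⟨C, c, hC, hc, ?_, ?_⟩
  · rw [hcon]
    exact MeasurableSet.iInter fun k => MeasurableSet.iUnion fun n =>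
      MeasurableSet.iUnion fun _ => hmeas n
  · have hcompl : (con A W M C c)ᶜ
        = ⋃ k : ℕ, ⋂ n : ℕ, ⋂ _ : k ≤ n, (typ A W M C c ((1 / 2 : ℝ) ^ n))ᶜ := by
      rw [hcon]
      simp only [compl_iInter, compl_iUnion]
    have hmono : Monotone fun k : ℕ => ⋂ n : ℕ, ⋂ _ : k ≤ n, (typ A W M C c ((1 / 2 : ℝ) ^ n))ᶜ := by
      intro a b hab x hx
      simp only [mem_iInter] at hx ⊢
      exact fun n hn => hx n (hab.trans hn)
    rw [hcompl, hmono.measure_iUnion]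
    refine iSup_le fun k => ?_
    refine (measure_mono ?_).trans (H2 _ (hpos k) (hle k)).2
    intro x hx
    simp only [mem_iInter] at hx
    exact hx k le_rfl

end Pool.Agent.SG
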