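import Pool.Agent.helper56.SG.SpecG

/-!
# UCV: uniform convergence on the disc (project sg:)
-/

set_option autoImplicit false

open MeasureTheory Set Metric Filter Topology
open scoped ENNReal NNReal ComplexConjugate
open Pool.Agent.SG

noncomputable section

namespace Pool.Agent.SGG

theorem UCV : UCV_stmt := by
  classical
  intro u q M hq0 hq1 hcont hstep
  have hd : ∀ x ∈ ball (0 : ℂ) 1, ∀ n, dist (u n x) (u (n + 1) x) ≤ M * q ^ n := by
    intro x hx n
    rw [dist_comm, Real.dist_eq, mul_comm]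
    exact hstep n x hx
  have hlim : ∀ x : ℂ, ∃ w : ℝ, x ∈ ball (0 : ℂ) 1 → Tendsto (fun n => u n x) atTop (𝓝 w) := by
    intro x
    by_cases hx : x ∈ ball (0 : ℂ) 1
    · obtain ⟨w, hw⟩ := cauchySeq_tendsto_of_complete
        (cauchySeq_of_le_geometric q M hq1 (hd x hx))
      exact ⟨w, fun _ => hw⟩
    · exact ⟨0, fun h => absurd h hx⟩
  choose W hW using hlim
  have hbd : ∀ x ∈ ball (0 : ℂ) 1, ∀ n, |u n x - W x| ≤ M * q ^ n / (1 - q) := by
    intro x hx n
    have h := dist_le_of_le_geometric_of_tendsto q M hq1 (hd x hx) (hW x hx) n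
    rwa [Real.dist_eq] at h
  have hto : Tendsto (fun n : ℕ => M * q ^ n / (1 - q)) atTop (𝓝 0) := by
    have h1 := tendsto_pow_atTop_nhds_zero_of_lt_one hq0 hq1
    have h2 := (h1.const_mul M).div_const (1 - q)
    simpa using h2
  have huni : ∀ ε : ℝ, 0 < ε → ∃ N : ℕ, ∀ n ≥ N, ∀ x ∈ ball (0 : ℂ) 1, |u n x - W x| ≤ ε := by
    intro ε hε
    have hev : ∀ᶠ n : ℕ in atTop, M * q ^ n / (1 - q) < ε := hto.eventually (gt_mem_nhds hε)
    obtain ⟨N, hN⟩ := eventually_atTop.1 hev
    exact ⟨N, fun n hn x hx => (hbd x hx n).trans (hN n hn).le⟩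
  refine ⟨W, ?_, huni⟩
  have htu : TendstoUniformlyOn u W atTop (ball (0 : ℂ) 1) := by
    rw [Metric.tendstoUniformlyOn_iff]
    intro ε hε
    obtain ⟨N, hN⟩ := huni (ε / 2) (half_pos hε)
    refine eventually_atTop.2 ⟨N, fun n hn x hx => ?_⟩
    rw [dist_comm, Real.dist_eq]
    exact lt_of_le_of_lt (hN n hn x hx) (half_lt_self hε)
  exact htu.continuousOn (Eventually.of_forall fun n => hcont n).frequently

end Pool.Agent.SGG
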